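import Mathlib
import Pool.Agent.Y642.ND.AShp
import Pool.Agent.Y642.ND.Prd

/-!
# The simultaneous Lehmer inequality for tuples with many p-adic or real conjugates

Let `α = (α_1, …, α_n)` be algebraic numbers, `F = ℚ(α_1, …, α_n)`, `D = [F : ℚ]` and `h_j` the
height of `α_j`. Let `r` be at most the number of embeddings of `F` in `ℝ`. Let `K_i` be finitely
many (or no) nonarchimedean local fields of characteristic zero over distinct primes `p_i`, with
ramification index `e_i` and residue field with `q_i` elements, and let `T_i` be a set of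
`R_i ≥ 2 (4 n q_i + 8) ^ n` embeddings of `F` in `K_i` which map `α_1, …, α_n` to integers of
`K_i`. Put `X = ∑ (log p_i / (e_i q_i)) R_i ^ (1 + 1 / n) + r ^ (1 + 1 / n) / (3 log (2 D + 2))`
and suppose `X ≥ 16 (D log D + 7 n r)`. Let `κ ≥ 1 / D` and `t = κ X / (144 n D)`; suppose that
`h_j ≤ t` for all `j` and that no nonzero polynomial with rational coefficients whose degree in
the `j`-th variable is less than `δ_j` for all `j` vanishes at `α`, for all integers `δ_j ≥ 1`
with `δ_1 ⋯ δ_n ≤ κ D` and `δ_j h_j ≤ t`. Then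

`h_1 ⋯ h_n ≥ X t ^ (n - 1) / (2 ^ (n + 6) n D ^ 2)
  ≥ (κ log D / (9 n)) ^ (n - 1) log D / (2 ^ (n + 2) n D)`.

So the inequality `h_1 ⋯ h_n ≥ c / D` of Amoroso and David holds, with `(log D) ^ n` to spare,
for such tuples with at least about `(D log D) ^ (n / (n + 1))` conjugates over some local field,
or with at least about `(D (log D) ^ 2) ^ (n / (n + 1))` real conjugates.

The method: a linear version of a theorem of Olson on sums of sets shows that the monomials with
exponents at most `2 D δ_j / (δ_1 ⋯ δ_n)` in the `j`-th variable contain a basis of `F`; its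
discriminant is bounded above in terms of the heights by Hadamard's inequality and is divisible by
high powers of the `p_i` (Newton polynomials in `n` variables adapted to the residue classes of
`K_i`), and the real conjugates save a power of two (divided differences on the cells of a
subdivision of real space); then `δ_j` is chosen close to `t / h_j`.
-/

set_option autoImplicit false

open Polynomial Module NumberField ValuativeRel

universe u v

namespace Pool.Agent.Results.MP_8298ec_nt.ProductInequality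

/-- A nonarchimedean local field `K` of characteristic zero (in the sense of Mathlib) with the
prime number `p` below it and its ramification index `e`, so `p 𝒪 = 𝔪 ^ e`. -/
structure Place : Type (u + 1) where
  p : ℕ
  hp : p.Prime
  K : Type u
  [fld : Field K]
  [val : ValuativeRel K]
  [top : TopologicalSpace K]
  [loc : IsNonarchimedeanLocalField K]
  [char0 : CharZero K]
  e : ℕ
  he : 1 ≤ e
  ram : Ideal.span {((p : ℕ) : 𝒪[K])} = 𝓂[K] ^ e

attribute [instance] Place.fld Place.val Place.top Place.loc Place.char0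

/-- the number of elements of the residue field -/
noncomputable def Place.q (P : Place.{u}) : ℕ := Nat.card 𝓀[P.K]

/-- `f_j` is an irreducible polynomial with integer coefficients with the zero `α_j` -/
def IsMin {F : Type} [Field F] {n : ℕ} (α : Fin n → F) (f : Fin n → ℤ[X]) : Prop :=
  ∀ j, Irreducible (f j) ∧ aeval (α j) (f j) = 0

/-- The absolute logarithmic Weil height of a zero of the irreducible polynomial `f` with integer
coefficients: the logarithm of the Mahler measure of `f` divided by its degree. -/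
noncomputable def height (f : ℤ[X]) : ℝ :=
  Real.log (f.map (Int.castRingHom ℂ)).mahlerMeasure / f.natDegree

/-- no nonzero polynomial over `ℚ` whose degree in the `j`-th variable is less than `δ_j` for all
`j` vanishes at `α` -/
def NoRelation {F : Type} [Field F] [NumberField F] {n : ℕ} (α : Fin n → F) (δ : Fin n → ℕ) :
    Prop :=
  ∀ G : MvPolynomial (Fin n) ℚ, G ≠ 0 → (∀ j, G.degreeOf j < δ j) → MvPolynomial.aeval α G ≠ 0

/-- the sum `X` -/
noncomputable def locSum (n : ℕ) {ι : Type v} [Fintype ι] (P : ι → Place.{u}) (R : ι → ℕ)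
    (D : ℝ) (r : ℕ) : ℝ :=
  ∑ i, Real.log (P i).p / ((P i).e * (P i).q) * (R i : ℝ) ^ (1 + 1 / (n : ℝ)) +
    (r : ℝ) ^ (1 + 1 / (n : ℝ)) / (3 * Real.log (2 * D + 2))

/-- **The simultaneous Lehmer inequality for tuples with many p-adic or real conjugates.** -/
theorem result {n : ℕ} (hn : 1 ≤ n) {F : Type} [Field F] [NumberField F] (α : Fin n → F)
    (hα : Algebra.adjoin ℚ (Set.range α) = ⊤) (f : Fin n → ℤ[X]) (hf : IsMin α f)
    (h : Fin n → ℝ) (hh : ∀ j, h j = height (f j)) (D : ℝ) (hD : D = finrank ℚ F)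
    {ι : Type v} [Fintype ι] (P : ι → Place.{u}) (hinj : Function.Injective fun i => (P i).p)
    (T : ∀ i, Finset (F →+* (P i).K)) (R : ι → ℕ) (hR : ∀ i, R i = (T i).card)
    (hR2 : ∀ i, 2 * (4 * n * (P i).q + 8) ^ n ≤ R i)
    (hT : ∀ i, ∀ τ ∈ T i, ∀ j, τ (α j) ∈ 𝒪[(P i).K])
    (r : ℕ) (hr : r ≤ InfinitePlace.nrRealPlaces F)
    (X κ t : ℝ) (hX : X = locSum n P R D r) (hXD : 16 * (D * Real.log D + 7 * n * r) ≤ X)
    (hκ : 1 ≤ κ * D) (ht : t = κ * X / (144 * n * D)) (hht : ∀ j, h j ≤ t)
    (hrel : ∀ δ : Fin n → ℕ, (∀ j, 1 ≤ δ j) → ∏ j, (δ j : ℝ) ≤ κ * D → (∀ j, δ j * h j ≤ t) →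
      NoRelation α δ) :
    X * t ^ (n - 1) / (2 ^ (n + 6) * n * D ^ 2) ≤ ∏ j, h j ∧
    (κ * Real.log D / (9 * n)) ^ (n - 1) * Real.log D / (2 ^ (n + 2) * n * D) ≤ ∏ j, h j := by
  obtain rfl : R = fun i => (T i).card := funext hR
  obtain rfl : h = fun j => height (f j) := funext hh
  have hn1 : (1 : ℝ) ≤ n := by exact_mod_cast hn
  have hn0 : (0 : ℝ) < n := by linarith
  have hD0 : (0 : ℝ) < D := by
    rw [hD]
    exact_mod_cast (finrank_pos : 0 < finrank ℚ F)
  have hlog : 0 ≤ Real.log D := by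
    rw [hD]
    exact Real.log_natCast_nonneg _
  have hκ0 : 0 < κ := by
    by_contra hcon
    push Not at hcon
    nlinarith
  have hXD' : 16 * (D * Real.log D) ≤ X := by
    have h8 : (0 : ℝ) ≤ 7 * n * r := by positivity
    linarith
  have hX0 : 0 ≤ X := le_trans (by positivity) hXD'
  have hh0 : ∀ j, 0 ≤ height (f j) := fun j => Pool.Agent.Y642.ND.wh_nonneg (hf j).1.ne_zero
  have hinj' : Set.InjOn (fun i => (P i).p) (Finset.univ : Finset ι) := hinj.injOn
  let P' : ι → Pool.Agent.Y642.LZ.Place.{u} := fun i =>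
    { p := (P i).p, hp := (P i).hp, K := (P i).K, e := (P i).e, he := (P i).he, ram := (P i).ram }
  set G : ℝ := ∑ i ∈ (Finset.univ : Finset ι), 2 * Real.log (P' i).p / ((P' i).e * (P' i).q) *
    Pool.Agent.Y642.ND.gain n (P' i).q (T i).card with hG
  have hD1 : (1 : ℝ) ≤ D := by
    rw [hD]
    exact_mod_cast (finrank_pos : 0 < finrank ℚ F)
  have hlogpos : 0 < Real.log (2 * D + 2) := Real.log_pos (by linarith)
  set Y : ℝ := (r : ℝ) ^ (1 + 1 / (n : ℝ)) / (32 * Real.log (2 * D + 2)) with hY
  have hY0 : 0 ≤ Y := by positivity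
  have hZ : (r : ℝ) ^ (1 + 1 / (n : ℝ)) / (3 * Real.log (2 * D + 2)) = 32 / 3 * Y := by
    rw [hY]
    field_simp
  have hLG : (∑ i, Real.log (P i).p / ((P i).e * (P i).q) *
      ((T i).card : ℝ) ^ (1 + 1 / (n : ℝ))) / 8 ≤ G := by
    rw [hG, Finset.sum_div]
    refine Finset.sum_le_sum fun i _ => ?_
    have hq2 : 2 ≤ (P' i).q := by
      have := (P' i).toLoc.two_le_q
      rwa [Pool.Agent.Y642.LZ.Place.toLoc_q] at this
    have hRi : 2 * (4 * (n : ℝ) * (P' i).q + 8) ^ n ≤ ((T i).card : ℝ) := by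
      exact_mod_cast hR2 i
    have h4 := Pool.Agent.Y642.ND.gain_ge hn hq2 hRi
      (by linarith [(Nat.cast_nonneg (T i).card : (0 : ℝ) ≤ ((T i).card : ℝ))] :
        ((T i).card : ℝ) / 2 ≤ ((T i).card : ℝ))
    have he1 : (1 : ℝ) ≤ (P' i).e := by exact_mod_cast (P' i).he
    have hq0 : (2 : ℝ) ≤ (P' i).q := by exact_mod_cast hq2
    have hlp : 0 < Real.log (P' i).p := Real.log_pos (by exact_mod_cast (P' i).hp.one_lt)
    have h8 : Real.log (P' i).p / ((P' i).e * (P' i).q) *
        ((T i).card : ℝ) ^ (1 + 1 / (n : ℝ)) / 8 =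
        2 * Real.log (P' i).p / ((P' i).e * (P' i).q) *
          (((T i).card : ℝ) ^ (1 + 1 / (n : ℝ)) / 16) := by
      field_simp
      ring
    refine le_trans (le_of_eq h8) ?_
    exact mul_le_mul_of_nonneg_left h4 (by positivity)
  have hGX : X / 8 ≤ G + 1.38 * Y := by
    rw [hX, locSum, hZ]
    linarith
  have main : X * t ^ (n - 1) / (2 ^ (n + 6) * n * D ^ 2) ≤ ∏ j, height (f j) := by
    rcases hX0.eq_or_lt with h0 | hXpos
    · rw [← h0, zero_mul, zero_div]
      exact Finset.prod_nonneg fun j _ => hh0 j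
    set E : ℝ := X / 16 with hE
    have ht0 : 0 < t := by
      rw [ht]
      positivity
    have htE : 9 * n * D * t ≤ κ * E := by
      rw [ht, hE]
      apply le_of_eq
      field_simp
      ring
    have h1 := Pool.Agent.Y642.ND.Prd.prod_form hn (h := fun j => height (f j)) hD0 hκ
      (by positivity : 0 < E) ht0 htE hh0 hht (fun δ hδ1 hδt hδκ => by
        have h2 := Pool.Agent.Y642.ND.AShp.ashape hn hα (fun j => (hf j).1) (fun j => (hf j).2)
          hδ1 (hrel δ hδ1 hδκ hδt) Finset.univ P' hinj' T (fun i _ τ hτ j => hT i τ hτ j) hr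
        have h3 : G + 1.38 * Y ≤ D * Real.log D + 7 * n * r +
            4 * (D ^ 2 / ∏ i, (δ i : ℝ)) * ∑ j, δ j * height (f j) := by
          rw [hY, hD]
          exact h2
        rw [hE]
        linarith)
    refine le_trans (le_of_eq ?_) h1
    rw [hE]
    have h5 : (2 : ℝ) ^ (n + 6) = 16 * 2 ^ (n + 2) := by
      rw [pow_add, pow_add]
      ring
    rw [h5]
    field_simp
  refine ⟨main, le_trans ?_ main⟩
  have h1 : κ * Real.log D / (9 * n) ≤ t := by
    rw [ht, div_le_div_iff₀ (by positivity) (by positivity)]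
    have h2 : κ * (16 * (D * Real.log D)) ≤ κ * X := mul_le_mul_of_nonneg_left hXD' hκ0.le
    have h3 : 0 < 9 * (n : ℝ) := by positivity
    have h4 := mul_le_mul_of_nonneg_right h2 h3.le
    calc κ * Real.log D * (144 * n * D) = κ * (16 * (D * Real.log D)) * (9 * n) := by ring
      _ ≤ κ * X * (9 * n) := h4
  have h2 : (κ * Real.log D / (9 * n)) ^ (n - 1) ≤ t ^ (n - 1) :=
    pow_le_pow_left₀ (by positivity) h1 _
  have h3 : 16 * (D * Real.log D) * (κ * Real.log D / (9 * n)) ^ (n - 1) ≤ X * t ^ (n - 1) :=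
    mul_le_mul hXD' h2 (by positivity) hX0
  have h5 : (2 : ℝ) ^ (n + 6) = 16 * 2 ^ (n + 2) := by
    rw [pow_add, pow_add]
    ring
  have h6 : (κ * Real.log D / (9 * n)) ^ (n - 1) * Real.log D / (2 ^ (n + 2) * n * D) =
      16 * (D * Real.log D) * (κ * Real.log D / (9 * n)) ^ (n - 1) /
        (2 ^ (n + 6) * n * D ^ 2) := by
    rw [h5, div_eq_div_iff (by positivity) (by positivity)]
    ring
  rw [h6]
  exact div_le_div_of_nonneg_right h3 (by positivity)

end Pool.Agent.Results.MP_8298ec_nt.ProductInequality
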